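import Pool.Agent.Helper84.SQ.GoalsD

/-!
# Project SQ, packet UNB: unboundedness implies a very negative value in a slice
-/

set_option autoImplicit false

namespace Pool.Agent.Helper30.SQ

open Pool.Agent.Helper84.SQ

/-- the slice `x v = t`: the convex part is bounded below -/
theorem bdd_slice (h1 : FwrStmt) {m n s : ℕ} (W : Matrix (Fin m) (Fin n) ℤ) (w : Fin m → ℤ)
    (q h : Fin n → ℤ) (v : Fin n) (hs : Sm s W w q h) (hN : NB W q h v) (t : ℝ) :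
    ∃ B : ℝ, ∀ x ∈ FeaR W w, x v = t → B ≤ gR q h x := by
  classical
  by_cases hex : ∃ x ∈ FeaR W w, x v = t
  · let ev : Fin n → ℝ := fun j => if j = v then 1 else 0
    let W1 : Matrix (Fin (m + 1)) (Fin n) ℝ :=
      Fin.cons (fun j => -ev j) (fun i j => (W i j : ℝ))
    let W2 : Matrix (Fin (m + 1 + 1)) (Fin n) ℝ := Fin.cons ev W1
    let w1 : Fin (m + 1) → ℝ := Fin.cons (-t) (fun i => (w i : ℝ))
    let w2 : Fin (m + 1 + 1) → ℝ := Fin.cons t w1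
    have hev : ∀ x : Fin n → ℝ, ∑ j, ev j * x j = x v := by
      intro x
      simp [ev]
    have key : ∀ (x : Fin n → ℝ) (c : Fin m → ℝ) (a b : ℝ),
        (∀ i, ∑ j, W2 i j * x j ≤ (Fin.cons a (Fin.cons b c : Fin (m + 1) → ℝ) :
          Fin (m + 1 + 1) → ℝ) i) ↔
        x v ≤ a ∧ -x v ≤ b ∧ ∀ i, ∑ j, (W i j : ℝ) * x j ≤ c i := by
      intro x c a b
      rw [Fin.forall_fin_succ, Fin.forall_fin_succ]
      have e1 : ∑ j, W2 0 j * x j = x v := by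
        show ∑ j, ev j * x j = x v
        exact hev x
      have e2 : ∑ j, W2 (Fin.succ 0) j * x j = -x v := by
        show ∑ j, -ev j * x j = -x v
        rw [← hev x, ← Finset.sum_neg_distrib]
        exact Finset.sum_congr rfl fun j _ => by ring
      have e3 : ∀ i : Fin m, ∑ j, W2 (Fin.succ (Fin.succ i)) j * x j =
          ∑ j, (W i j : ℝ) * x j := fun i => rfl
      rw [e1, e2]
      simp only [e3, Fin.cons_zero, Fin.cons_succ]
    have hq : ∀ j, (0 : ℝ) ≤ (q j : ℝ) := fun j => by exact_mod_cast hs.q0 j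
    obtain ⟨x, hx, hmin⟩ := h1 (m + 1 + 1) n W2 w2 (fun j => (q j : ℝ)) (fun j => (h j : ℝ)) hq (by
      intro r hr hr0
      have h0 : ∀ i, ∑ j, W2 i j * r j ≤ (Fin.cons 0 (Fin.cons 0 (fun _ => 0) :
          Fin (m + 1) → ℝ) : Fin (m + 1 + 1) → ℝ) i := by
        intro i
        have e : (Fin.cons 0 (Fin.cons 0 (fun _ => 0) : Fin (m + 1) → ℝ) :
            Fin (m + 1 + 1) → ℝ) i = 0 := by
          refine Fin.cases rfl (fun i => ?_) i
          exact Fin.cases rfl (fun i => rfl) i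
        rw [e]
        exact hr i
      obtain ⟨a1, a2, a3⟩ := (key r _ _ _).1 h0
      exact hN r a3 (by linarith) (fun j hj => hr0 j (by exact_mod_cast hj))) (by
      obtain ⟨x, hx, hxt⟩ := hex
      exact ⟨x, (key x _ _ _).2 ⟨hxt.le, by rw [hxt], hx⟩⟩)
    refine ⟨∑ j, ((q j : ℝ) * x j ^ 2 + (h j : ℝ) * x j), ?_⟩
    intro y hy hyt
    exact hmin y ((key y _ _ _).2 ⟨hyt.le, by rw [hyt], hy⟩)
  · refine ⟨0, ?_⟩
    intro x hx hxt
    exact absurd ⟨x, hx, hxt⟩ hex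

theorem unb (h1 : FwrStmt) (h2 : KkfStmt) (h3 : TaiStmt) (h4 : QudStmt) (h5 : RrdStmt) :
    UnbStmt := by
  intro m n s W w q h v κ hTU hs hqv hκ0 hκ hN hub
  set E := eE s with hE
  have hs2 := hs.s2
  have hsE : 2 * s ≤ E := by
    rw [hE]
    unfold eE
    nlinarith
  have hE1 : 48 ≤ E := by
    rw [hE]
    unfold eE
    nlinarith
  -- a common bound for the slices
  choose B hB using fun t : ℤ => bdd_slice h1 W w q h v hs hN (t : ℝ)
  let S : Finset ℤ := Finset.Icc (-2 ^ (6 * E)) (2 ^ (6 * E))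
  have hM : ∃ M : ℝ, M ≤ -2 ^ (3 * E) ∧ ∀ t ∈ S, M ≤ B t - κ * (2 ^ (6 * E)) ^ 2 := by
    have : ∃ M0 : ℝ, ∀ t ∈ S, M0 ≤ B t - κ * (2 ^ (6 * E)) ^ 2 := by
      induction S using Finset.induction_on with
      | empty => exact ⟨0, by simp⟩
      | insert a S _ ih =>
        obtain ⟨M0, h0⟩ := ih
        refine ⟨min M0 (B a - κ * (2 ^ (6 * E)) ^ 2), ?_⟩
        intro t ht
        rw [Finset.mem_insert] at ht
        rcases ht with rfl | ht
        · exact min_le_right _ _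
        · exact (min_le_left _ _).trans (h0 t ht)
    obtain ⟨M0, h0⟩ := this
    exact ⟨min M0 (-2 ^ (3 * E)), min_le_right _ _, fun t ht => (min_le_left _ _).trans (h0 t ht)⟩
  obtain ⟨M, hM1, hM2⟩ := hM
  obtain ⟨y, hy, hyM⟩ := hub M
  have hyR : (fun j => (y j : ℝ)) ∈ FeaR W w := by
    intro i
    have := hy i
    show ∑ j, (W i j : ℝ) * ((y j : ℤ) : ℝ) ≤ w i
    exact_mod_cast this
  have hyv : ¬ |y v| ≤ 2 ^ (6 * E) := by
    intro hle
    have hmem : y v ∈ S := by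
      rw [Finset.mem_Icc]
      exact abs_le.1 hle
    have a1 := hM2 (y v) hmem
    have a2 := hB (y v) _ hyR rfl
    have a3 : (κ : ℝ) * (y v : ℝ) ^ 2 ≤ κ * (2 ^ (6 * E)) ^ 2 := by
      have h0 : (0 : ℝ) ≤ κ := by exact_mod_cast hκ0
      have h1' : (y v : ℝ) ^ 2 ≤ (2 ^ (6 * E)) ^ 2 := by
        rw [← sq_abs]
        have : |(y v : ℝ)| ≤ 2 ^ (6 * E) := by exact_mod_cast hle
        gcongr
      exact mul_le_mul_of_nonneg_left h1' h0
    linarith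
  rw [not_le] at hyv
  -- the sign
  obtain ⟨σ, τ, hσ, hτ, hστ⟩ : ∃ σ τ : ℤ, (σ = 1 ∨ σ = -1) ∧ 2 ^ (6 * E) < τ ∧ y v = σ * τ := by
    rcases le_total 0 (y v) with h0 | h0
    · exact ⟨1, y v, Or.inl rfl, by rwa [abs_of_nonneg h0] at hyv, by ring⟩
    · exact ⟨-1, -y v, Or.inr rfl, by rwa [abs_of_nonpos h0] at hyv, by ring⟩
  have hpow : ∀ a b : ℕ, a ≤ b → (2 : ℤ) ^ a ≤ 2 ^ b := fun a b hab =>
    pow_le_pow_right₀ (by norm_num) hab
  obtain ⟨D, X, Y, hD1, hDE, hX, hY, hXv, hYv, hpt, hmin⟩ := h2 m n s W w q h v σ τ hs hqv hσ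
    (by
      have := hpow E (6 * E) (by omega)
      linarith) hN ⟨_, hyR, by
      show ((y v : ℤ) : ℝ) = σ * τ
      exact_mod_cast hστ⟩
  have hgτ : gR q h (pt D X Y τ) - κ * (τ : ℝ) ^ 2 < -2 ^ (3 * E) := by
    have a1 := hmin _ hyR (by
      show ((y v : ℤ) : ℝ) = σ * τ
      exact_mod_cast hστ)
    have a2 : (y v : ℝ) ^ 2 = (τ : ℝ) ^ 2 := by
      have : (y v : ℝ) = σ * τ := by exact_mod_cast hστ
      rw [this]
      rcases hσ with rfl | rfl <;> push_cast <;> ring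
    rw [a2] at hyM
    linarith
  have hptN : pt D X Y (2 ^ (6 * E)) ∈ FeaR W w :=
    h3 m n s W w q h D X Y τ (2 ^ (6 * E)) hs hD1 hDE hX hY
      (by
        have := hpow (2 * E) (6 * E) (by omega)
        linarith)
      (hpow (2 * E) (6 * E) (by omega)) hpt
  have hgN := h4 m n s W w q h κ D X Y τ (2 ^ (6 * E)) hs hκ0 hκ hD1 hDE hX hY
    (by
      have := hpow (5 * E) (6 * E) (by omega)
      linarith)
    (hpow (5 * E) (6 * E) (by omega)) hgτ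
  have hDpos : (0 : ℝ) < D := by exact_mod_cast hD1
  have hptv : pt D X Y (2 ^ (6 * E)) v = ((σ * 2 ^ (6 * E) : ℤ) : ℝ) := by
    show ((X v : ℝ) + ((2 ^ (6 * E) : ℤ) : ℝ) * Y v) / D = ((σ * 2 ^ (6 * E) : ℤ) : ℝ)
    rw [hXv, hYv, div_eq_iff hDpos.ne']
    push_cast
    ring
  obtain ⟨y', hy', hy'v, hy'd, hy'g⟩ := h5 m n W w q h v (σ * 2 ^ (6 * E)) hTU hs.q0 _ hptN hptv
  have hE2 : (1 : ℝ) ≤ 2 ^ E := one_le_pow₀ (by norm_num)
  have hE48 : (2 : ℝ) ^ 48 ≤ 2 ^ E := pow_le_pow_right₀ (by norm_num) hE1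
  have hE3 : (2 : ℝ) ^ (3 * E) = (2 ^ E) ^ 3 := by rw [mul_comm, pow_mul]
  have hE6 : (2 : ℝ) ^ (6 * E) = (2 ^ E) ^ 6 := by rw [mul_comm, pow_mul]
  have hE2' : (2 : ℝ) ^ (2 * E) = (2 ^ E) ^ 2 := by rw [mul_comm, pow_mul]
  have hE8 : (2 : ℝ) ^ (8 * E) = (2 ^ E) ^ 8 := by rw [mul_comm, pow_mul]
  refine ⟨y', hy', ?_, ?_, ?_⟩
  · rcases hσ with rfl | rfl
    · left
      rw [hy'v]
      ring
    · right
      rw [hy'v]
      ring
  · intro j
    have a1 := hy'd j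
    have a2 : |pt D X Y (2 ^ (6 * E)) j| ≤ 2 ^ E + 2 ^ (6 * E) * 2 ^ E := by
      show |((X j : ℝ) + ((2 ^ (6 * E) : ℤ) : ℝ) * Y j) / D| ≤ _
      have b1 : |(X j : ℝ)| ≤ 2 ^ E := by exact_mod_cast hX j
      have b2 : |(Y j : ℝ)| ≤ 2 ^ E := by exact_mod_cast hY j
      have b3 : (1 : ℝ) ≤ D := by exact_mod_cast hD1
      have b4 : |(X j : ℝ) + ((2 ^ (6 * E) : ℤ) : ℝ) * Y j| ≤ 2 ^ E + 2 ^ (6 * E) * 2 ^ E := by
        refine (abs_add_le _ _).trans ?_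
        rw [abs_mul]
        have b5 : |((2 ^ (6 * E) : ℤ) : ℝ)| = 2 ^ (6 * E) := by
          push_cast
          exact abs_of_pos (by positivity)
        rw [b5]
        gcongr
      rw [abs_div, abs_of_pos hDpos]
      exact (div_le_self (abs_nonneg _) b3).trans b4
    have a3 : |(y' j : ℝ)| ≤ 2 ^ (8 * E) := by
      have c1 : |(y' j : ℝ)| ≤ |(y' j : ℝ) - pt D X Y (2 ^ (6 * E)) j| +
          |pt D X Y (2 ^ (6 * E)) j| := by
        have := abs_add_le ((y' j : ℝ) - pt D X Y (2 ^ (6 * E)) j) (pt D X Y (2 ^ (6 * E)) j)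
        rwa [sub_add_cancel] at this
      rw [hE6] at a2
      rw [hE8]
      set Z : ℝ := 2 ^ E with hZ
      have hZ48 : (2 : ℝ) ^ 48 ≤ Z := hE48
      have c2 : 1 + Z + Z ^ 6 * Z ≤ Z ^ 8 := by
        have d1 : (3 : ℝ) ≤ Z := by
          have : (3 : ℝ) ≤ 2 ^ 48 := by norm_num
          linarith
        have d2 : (1 : ℝ) ≤ Z ^ 7 := one_le_pow₀ hE2
        have d3 : Z ≤ Z ^ 7 := by
          calc Z = Z ^ 1 := (pow_one Z).symm
            _ ≤ Z ^ 7 := pow_le_pow_right₀ hE2 (by norm_num)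
        calc 1 + Z + Z ^ 6 * Z = 1 + Z + Z ^ 7 := by ring
          _ ≤ 3 * Z ^ 7 := by linarith
          _ ≤ Z * Z ^ 7 := by gcongr
          _ = Z ^ 8 := by ring
      linarith
    exact_mod_cast a3
  · have b1 : (y' v : ℝ) ^ 2 = ((2 ^ (6 * E) : ℤ) : ℝ) ^ 2 := by
      rw [hy'v]
      rcases hσ with rfl | rfl <;> push_cast <;> ring
    have b2 : ∑ j, (q j : ℝ) ≤ 2 ^ E := by
      have c1 : ∀ j ∈ Finset.univ, (q j : ℝ) ≤ 2 ^ s := fun j _ => by exact_mod_cast hs.qs j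
      have c2 := Finset.sum_le_sum c1
      rw [Finset.sum_const, Finset.card_univ, Fintype.card_fin, nsmul_eq_mul] at c2
      have c3 : (n : ℝ) ≤ 2 ^ s := by
        have : n ≤ 2 ^ s := hs.ns.trans Nat.lt_two_pow_self.le
        exact_mod_cast this
      calc ∑ j, (q j : ℝ) ≤ n * 2 ^ s := c2
        _ ≤ 2 ^ s * 2 ^ s := by gcongr
        _ = 2 ^ (2 * s) := by rw [← pow_add]; congr 1; ring
        _ ≤ 2 ^ E := pow_le_pow_right₀ (by norm_num) hsE
    rw [b1]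
    have b3 : ((2 : ℝ) ^ (3 * E) - ((2 ^ (6 * E) : ℤ) : ℝ)) / 2 ^ (2 * E) =
        (2 ^ E) - (2 ^ E) ^ 4 := by
      push_cast
      rw [hE3, hE6, hE2']
      have : (2 : ℝ) ^ E ≠ 0 := by positivity
      field_simp
    rw [b3] at hgN
    rw [hE3]
    set Z : ℝ := 2 ^ E with hZ
    have hZ48 : (2 : ℝ) ^ 48 ≤ Z := hE48
    have c2 : Z + Z + Z ^ 3 < Z ^ 4 := by
      have d1 : (4 : ℝ) ≤ Z := by
        have : (4 : ℝ) ≤ 2 ^ 48 := by norm_num
        linarith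
      have d3 : Z ≤ Z ^ 3 := by
        calc Z = Z ^ 1 := (pow_one Z).symm
          _ ≤ Z ^ 3 := pow_le_pow_right₀ hE2 (by norm_num)
      have d4 : 0 < Z ^ 3 := by positivity
      calc Z + Z + Z ^ 3 ≤ 3 * Z ^ 3 := by linarith
        _ < 4 * Z ^ 3 := by linarith
        _ ≤ Z * Z ^ 3 := by gcongr
        _ = Z ^ 4 := by ring
    linarith

end Pool.Agent.Helper30.SQ
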